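import Mathlib
import Pool.Agent.X165.SepCov
import Pool.Agent.H2R2.Frac.Main
import Pool.Agent.Results.MP_eba1ef_gt.PowersAndProducts

set_option autoImplicit false

/-!
# MP_5e7226_co: the asymptotic form of the separation conjecture, for free powers

For a convex body `K` in `ℝ^d` and an interior point `o` let `K^(n)` be the free sum of `n` copies of
`K` about `o`: the convex hull in `(ℝ^d)^n` of the copies of `K - o` in the `n` orthogonal factors. (The
free power of a segment is a cross-body, and so is the free power of a cross-body.)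

* The numbers `s(K^(n), 0)^(1/n)` converge to their infimum `M`, and `1 ≤ M ≤ 2^d`, with equality on
  the right if and only if `K` is a cross-body centred at `o`.
* If `K` is not a cross-body centred at `o`, then there is a constant `C` such that the free sum `Q`
  of `L` (about `p`) and `K^(n)` satisfies the strict inequality `s(Q, 0) < 2^(m + dn)` of the
  conjecture for every `m ≥ 2`, every convex body `L` in `ℝ^m`, every interior point `p` of `L` and
  every `n ≥ C log m`.

The proof: it is shown that `s(K, o)` is equal to the least number of translates of the interior of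
the polar body of `K` with respect to `o` which cover this polar body (`H985.Sep` for one inequality,
`X165.SepCov` for the other one; in the literature on the illumination problem this is known for the
illumination number). The polar body of a free sum is the product of the polar bodies, and the
theorem `MP_eba1ef_gt.PowersAndProducts` of the starting files can be applied to them.
-/

namespace Pool.Agent.Results.MP_5e7226_co.FreeSumsOfPowers

open Filter Topology Set MeasureTheory Module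
open scoped InnerProductSpace
open Pool.Agent.H985.Sep Pool.Agent.X165.SepCov
open Pool.Agent.Results.MP_eba1ef_gt.PowersAndProducts (covNum power IsParallelotope covNum_spec
  covNum_le)

/-- `s(K, o)`: the least number of hyperplanes which separate every face of `K` strictly
from `o`. -/
noncomputable def sepNum {V : Type*} [NormedAddCommGroup V] [InnerProductSpace ℝ V] (K : Set V)
    (o : V) : ℕ :=
  sInf {k : ℕ | ∃ H : Finset (V × ℝ), H.card = k ∧ Separates H K o}

/-- The free sum of `n` copies of `K` about `o`. -/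
def freePower {d : ℕ} (K : Set (EuclideanSpace ℝ (Fin d))) (o : EuclideanSpace ℝ (Fin d))
    (n : ℕ) : Set (PiLp 2 (fun _ : Fin n => EuclideanSpace ℝ (Fin d))) :=
  convexHull ℝ (⋃ i, (fun y => PiLp.single 2 i (y - o)) '' K)

/-- The free sum of `L` about `p` and of `n` copies of `K` about `o`. -/
def freeSum {m d : ℕ} (L : Set (EuclideanSpace ℝ (Fin m))) (p : EuclideanSpace ℝ (Fin m))
    (K : Set (EuclideanSpace ℝ (Fin d))) (o : EuclideanSpace ℝ (Fin d)) (n : ℕ) :
    Set (WithLp 2 (EuclideanSpace ℝ (Fin m) × PiLp 2 (fun _ : Fin n => EuclideanSpace ℝ (Fin d)))) :=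
  convexHull ℝ ((fun y => WithLp.toLp 2 (y - p, 0)) '' L ∪
    (fun z => WithLp.toLp 2 (0, z)) '' freePower K o n)

/-- Cross-bodies centred at `o`. -/
def IsCrossBody {d : ℕ} (K : Set (EuclideanSpace ℝ (Fin d))) (o : EuclideanSpace ℝ (Fin d)) :
    Prop :=
  ∃ (v : Fin d → EuclideanSpace ℝ (Fin d)) (t : Fin d → ℝ), LinearIndependent ℝ v ∧
    (∀ i, 0 < t i) ∧
    K = convexHull ℝ (Set.range (fun i => o + v i) ∪ Set.range (fun i => o - t i • v i))

/-! ### Coverings and linear homeomorphisms -/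

theorem cover_preimage {V F : Type*} [AddCommGroup V] [Module ℝ V] [TopologicalSpace V]
    [AddCommGroup F] [Module ℝ F] [TopologicalSpace F] (Φ : V ≃L[ℝ] F) (P : Set F) (T : Finset F)
    (h : P ⊆ ⋃ t ∈ T, (fun x => t + x) '' interior P) :
    ∃ T' : Finset V, T'.card ≤ T.card ∧
      Φ ⁻¹' P ⊆ ⋃ t ∈ T', (fun x => t + x) '' interior (Φ ⁻¹' P) := by
  classical
  refine ⟨T.image Φ.symm, Finset.card_image_le, fun x hx => ?_⟩
  obtain ⟨t, ht, y, hy, he⟩ := mem_iUnion₂.1 (h hx)
  rw [mem_iUnion₂]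
  refine ⟨Φ.symm t, Finset.mem_image_of_mem _ ht, Φ.symm y, ?_, ?_⟩
  · have e : interior (Φ ⁻¹' P) = Φ ⁻¹' (interior P) :=
      (Φ.toHomeomorph.preimage_interior P).symm
    rw [e]
    show Φ (Φ.symm y) ∈ interior P
    rwa [Φ.apply_symm_apply]
  · simp only at he ⊢
    rw [← map_add, he, Φ.symm_apply_apply]

/-! ### The polar body of a free sum -/

section

variable {d : ℕ} {K : Set (EuclideanSpace ℝ (Fin d))} {o : EuclideanSpace ℝ (Fin d)}

theorem single_mem (n : ℕ) (i : Fin n) {y : EuclideanSpace ℝ (Fin d)} (hy : y ∈ K) :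
    PiLp.single 2 i (y - o) ∈ freePower K o n :=
  subset_convexHull ℝ _ (mem_iUnion.2 ⟨i, y, hy, rfl⟩)

theorem inner_single (n : ℕ) (v : PiLp 2 (fun _ : Fin n => EuclideanSpace ℝ (Fin d)))
    (i : Fin n) (z : EuclideanSpace ℝ (Fin d)) :
    ⟪v, PiLp.single 2 i z⟫_ℝ = ⟪v i, z⟫_ℝ := by
  rw [PiLp.inner_apply, Finset.sum_eq_single i]
  · rw [PiLp.single_eq_same]
  · intro j _ hj
    rw [PiLp.single_eq_of_ne 2 hj, inner_zero_right]
  · intro h
    exact absurd (Finset.mem_univ i) h

theorem halfspace_convex {V : Type*} [NormedAddCommGroup V] [InnerProductSpace ℝ V] (v : V) :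
    Convex ℝ {y : V | ⟪v, y⟫_ℝ ≤ 1} := by
  intro x hx y hy a b ha hb hab
  have h1 : ⟪v, x⟫_ℝ ≤ 1 := hx
  have h2 : ⟪v, y⟫_ℝ ≤ 1 := hy
  show ⟪v, a • x + b • y⟫_ℝ ≤ 1
  rw [inner_add_right, real_inner_smul_right, real_inner_smul_right]
  nlinarith

theorem mem_polar_freePower (n : ℕ)
    (v : PiLp 2 (fun _ : Fin n => EuclideanSpace ℝ (Fin d))) :
    v ∈ polar (freePower K o n) 0 ↔ ∀ i, v i ∈ polar K o := by
  constructor
  · intro h i y hy
    have h1 := h _ (single_mem n i hy)
    rwa [sub_zero, inner_single] at h1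
  · intro h y hy
    rw [sub_zero]
    refine convexHull_min ?_ (halfspace_convex v) hy
    rintro _ hz
    obtain ⟨i, y, hy, rfl⟩ := mem_iUnion.1 hz
    show ⟪v, PiLp.single 2 i (y - o)⟫_ℝ ≤ 1
    rw [inner_single]
    exact h i y hy

theorem polar_freePower (n : ℕ) :
    polar (freePower K o n) 0 =
      (PiLp.continuousLinearEquiv 2 ℝ (fun _ : Fin n => EuclideanSpace ℝ (Fin d))) ⁻¹'
        power (polar K o) n := by
  ext v
  rw [mem_polar_freePower]
  rfl

theorem compact_freePower (hKc : IsCompact K) (n : ℕ) : IsCompact (freePower K o n) := by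
  refine Pool.Agent.H73R3.compact_hull (isCompact_iUnion fun i => hKc.image ?_)
  have h1 : Continuous fun y : EuclideanSpace ℝ (Fin d) =>
      (PiLp.continuousLinearEquiv 2 ℝ (fun _ : Fin n => EuclideanSpace ℝ (Fin d))).symm
        (Pi.single i (y - o)) := by
    refine (ContinuousLinearEquiv.continuous _).comp ?_
    exact (continuous_single i).comp (continuous_id.sub continuous_const)
  exact h1

theorem zero_mem_freePower (ho : o ∈ interior K) (n : ℕ) (hn : 1 ≤ n) :
    (0 : PiLp 2 (fun _ : Fin n => EuclideanSpace ℝ (Fin d))) ∈ interior (freePower K o n) := by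
  obtain ⟨r, hr, hrK⟩ := exists_ball ho
  have hn0 : (0 : ℝ) < n := by exact_mod_cast hn
  rw [mem_interior_iff_mem_nhds, Metric.mem_nhds_iff]
  refine ⟨r / n, by positivity, fun z hz => ?_⟩
  rw [mem_ball_zero_iff] at hz
  have hmem : ∀ i, PiLp.single 2 i ((n : ℝ) • z i) ∈ freePower K o n := by
    intro i
    have h1 : o + (n : ℝ) • z i ∈ K := by
      apply hrK
      rw [mem_closedBall_iff_norm, add_sub_cancel_left, norm_smul, Real.norm_of_nonneg hn0.le]
      have h2 := PiLp.norm_apply_le z i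
      calc (n : ℝ) * ‖z i‖ ≤ n * (r / n) := by gcongr; exact h2.trans hz.le
        _ = r := by field_simp
    have h3 := single_mem (K := K) (o := o) n i h1
    rwa [add_sub_cancel_left] at h3
  have h4 : ∑ i : Fin n, (1 / (n : ℝ)) • PiLp.single 2 i ((n : ℝ) • z i) ∈ freePower K o n := by
    refine (convex_convexHull ℝ _).sum_mem (fun _ _ => by positivity) ?_ fun i _ => hmem i
    rw [Finset.sum_const, Finset.card_univ, Fintype.card_fin, nsmul_eq_mul]
    field_simp
  have e : ∑ i : Fin n, (1 / (n : ℝ)) • PiLp.single 2 i ((n : ℝ) • z i) = z := by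
    ext1 j
    rw [WithLp.ofLp_sum, Finset.sum_apply, Finset.sum_eq_single j]
    · rw [PiLp.smul_apply, PiLp.single_eq_same, smul_smul, one_div, inv_mul_cancel₀ hn0.ne',
        one_smul]
    · intro i _ hi
      rw [PiLp.smul_apply, PiLp.single_eq_of_ne 2 hi.symm, smul_zero]
    · intro h
      exact absurd (Finset.mem_univ j) h
  rwa [e] at h4

theorem polar_freeSum {m : ℕ} (L : Set (EuclideanSpace ℝ (Fin m)))
    (p : EuclideanSpace ℝ (Fin m)) (n : ℕ) :
    polar (freeSum L p K o n) 0 =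
      ((WithLp.prodContinuousLinearEquiv 2 ℝ (EuclideanSpace ℝ (Fin m))
        (PiLp 2 (fun _ : Fin n => EuclideanSpace ℝ (Fin d)))).trans
        ((ContinuousLinearEquiv.refl ℝ _).prodCongr
          (PiLp.continuousLinearEquiv 2 ℝ (fun _ : Fin n => EuclideanSpace ℝ (Fin d))))) ⁻¹'
        (polar L p ×ˢ power (polar K o) n) := by
  ext v
  have key : v ∈ polar (freeSum L p K o n) 0 ↔ v.fst ∈ polar L p ∧
      v.snd ∈ polar (freePower K o n) 0 := by
    constructor
    · intro h
      constructor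
      · intro y hy
        have h1 := h (WithLp.toLp 2 (y - p, 0)) (subset_convexHull ℝ _ (Or.inl ⟨y, hy, rfl⟩))
        rw [sub_zero, WithLp.prod_inner_apply] at h1
        simpa using h1
      · intro y hy
        have h1 := h (WithLp.toLp 2 (0, y)) (subset_convexHull ℝ _ (Or.inr ⟨y, hy, rfl⟩))
        rw [sub_zero, WithLp.prod_inner_apply] at h1
        rw [sub_zero]
        simpa using h1
    · rintro ⟨h1, h2⟩ y hy
      rw [sub_zero]
      refine convexHull_min ?_ (halfspace_convex v) hy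
      rintro _ (⟨y, hy, rfl⟩ | ⟨y, hy, rfl⟩)
      · show ⟪v, WithLp.toLp 2 (y - p, 0)⟫_ℝ ≤ 1
        rw [WithLp.prod_inner_apply]
        simpa using h1 y hy
      · show ⟪v, WithLp.toLp 2 (0, y)⟫_ℝ ≤ 1
        rw [WithLp.prod_inner_apply]
        have h3 := h2 y hy
        rw [sub_zero] at h3
        simpa using h3
  rw [key, mem_polar_freePower]
  rfl

theorem zero_mem_freeSum {m : ℕ} {L : Set (EuclideanSpace ℝ (Fin m))}
    {p : EuclideanSpace ℝ (Fin m)} (hp : p ∈ interior L) (ho : o ∈ interior K) (n : ℕ)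
    (hn : 1 ≤ n) : (0 : WithLp 2 (EuclideanSpace ℝ (Fin m) ×
      PiLp 2 (fun _ : Fin n => EuclideanSpace ℝ (Fin d)))) ∈ interior (freeSum L p K o n) := by
  obtain ⟨r, hr, hrL⟩ := exists_ball hp
  obtain ⟨s, hs, hsK⟩ := exists_ball (zero_mem_freePower ho n hn)
  rw [mem_interior_iff_mem_nhds, Metric.mem_nhds_iff]
  refine ⟨min r s / 2, by positivity, fun z hz => ?_⟩
  rw [mem_ball_zero_iff] at hz
  have hz1 : ‖z.fst‖ ≤ min r s / 2 := (WithLp.norm_fst_le _ z).trans hz.le
  have hz2 : ‖z.snd‖ ≤ min r s / 2 := (WithLp.norm_snd_le _ z).trans hz.le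
  have h1 : p + (2 : ℝ) • z.fst ∈ L := by
    apply hrL
    rw [mem_closedBall_iff_norm, add_sub_cancel_left, norm_smul, Real.norm_of_nonneg (by norm_num)]
    linarith [min_le_left r s]
  have h2 : (2 : ℝ) • z.snd ∈ freePower K o n := by
    apply hsK
    rw [mem_closedBall_iff_norm, sub_zero, norm_smul, Real.norm_of_nonneg (by norm_num)]
    linarith [min_le_right r s]
  have h3 : WithLp.toLp 2 ((2 : ℝ) • z.fst, (0 : PiLp 2 (fun _ : Fin n =>
      EuclideanSpace ℝ (Fin d)))) ∈ freeSum L p K o n := by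
    have := subset_convexHull ℝ ((fun y => WithLp.toLp 2 (y - p, (0 : PiLp 2 (fun _ : Fin n =>
      EuclideanSpace ℝ (Fin d))))) '' L ∪
      (fun z => WithLp.toLp 2 (0, z)) '' freePower K o n) (Or.inl ⟨_, h1, rfl⟩)
    simpa [freeSum] using this
  have h4 : WithLp.toLp 2 ((0 : EuclideanSpace ℝ (Fin m)), (2 : ℝ) • z.snd) ∈
      freeSum L p K o n := subset_convexHull ℝ _ (Or.inr ⟨_, h2, rfl⟩)
  have h5 := (convex_convexHull ℝ _) h3 h4 (show (0 : ℝ) ≤ 1 / 2 by norm_num)
    (show (0 : ℝ) ≤ 1 / 2 by norm_num) (by norm_num)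
  have e : (1 / 2 : ℝ) • WithLp.toLp 2 ((2 : ℝ) • z.fst, (0 : PiLp 2 (fun _ : Fin n =>
      EuclideanSpace ℝ (Fin d)))) +
      (1 / 2 : ℝ) • WithLp.toLp 2 ((0 : EuclideanSpace ℝ (Fin m)), (2 : ℝ) • z.snd) = z := by
    have e1 : (1 / 2 : ℝ) • (2 : ℝ) • z.fst = z.fst := by
      rw [smul_smul]
      norm_num
    have e2 : (1 / 2 : ℝ) • (2 : ℝ) • z.snd = z.snd := by
      rw [smul_smul]
      norm_num
    apply WithLp.ofLp_injective
    refine Prod.ext ?_ ?_
    · show (1 / 2 : ℝ) • (2 : ℝ) • z.fst + (1 / 2 : ℝ) • (0 : EuclideanSpace ℝ (Fin m)) = z.fst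
      rw [smul_zero, add_zero, e1]
    · show (1 / 2 : ℝ) • (0 : PiLp 2 (fun _ : Fin n => EuclideanSpace ℝ (Fin d))) +
        (1 / 2 : ℝ) • (2 : ℝ) • z.snd = z.snd
      rw [smul_zero, zero_add, e2]
  rw [e] at h5
  exact h5

end

/-! ### Separation and coverings of the polar body -/

theorem nontrivial_space (d n : ℕ) (hd : 1 ≤ d) (hn : 1 ≤ n) :
    Nontrivial (PiLp 2 (fun _ : Fin n => EuclideanSpace ℝ (Fin d))) := by
  refine ⟨⟨PiLp.single 2 ⟨0, by omega⟩ (EuclideanSpace.single ⟨0, by omega⟩ 1), 0, fun h => ?_⟩⟩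
  have h1 := congrArg (fun v => v ⟨0, by omega⟩) h
  simp only [PiLp.single_eq_same, PiLp.zero_apply] at h1
  have h2 := congrArg (fun v => v ⟨0, by omega⟩) h1
  simp at h2

section

variable {d : ℕ} {K : Set (EuclideanSpace ℝ (Fin d))} {o : EuclideanSpace ℝ (Fin d)}

theorem exists_cover (hd : 1 ≤ d) (hKc : IsCompact K) (ho : o ∈ interior K) (n : ℕ) :
    ∃ T : Finset (Fin n → EuclideanSpace ℝ (Fin d)),
      power (polar K o) n ⊆ ⋃ t ∈ T, (fun x => t + x) '' interior (power (polar K o) n) := by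
  have hPi := interior_polar_nonempty hKc ho
  obtain ⟨⟨T, w, hw, -, hcov⟩, -⟩ := Pool.Agent.H2R2.Frac.primal d hd (polar K o)
    (isCompact_polar ho) (convex_polar K o) hPi
  obtain ⟨C, -, hC⟩ := Pool.Agent.Results.MP_eba1ef_gt.PowersAndProducts.pow_cover
    (hPi.mono interior_subset) ⟨T, w, hw, rfl, hcov⟩
  obtain ⟨Y, hY, -⟩ := hC n
  exact ⟨Y, hY⟩

theorem sepNum_freePower (hd : 1 ≤ d) (hKc : IsCompact K) (ho : o ∈ interior K) (n : ℕ)
    (hn : 1 ≤ n) : sepNum (freePower K o n) 0 = covNum (power (polar K o) n) := by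
  have := nontrivial_space d n hd hn
  have h0 := zero_mem_freePower ho n hn
  obtain ⟨T, hTc, hT⟩ := covNum_spec _ (exists_cover hd hKc ho n)
  obtain ⟨T', hT'c, hT'⟩ := cover_preimage
    (PiLp.continuousLinearEquiv 2 ℝ (fun _ : Fin n => EuclideanSpace ℝ (Fin d))) _ T hT
  rw [← polar_freePower] at hT'
  obtain ⟨H, hHc, hH0, hH⟩ := separate h0 T' hT'
  refine le_antisymm ?_ ?_
  · calc sepNum (freePower K o n) 0 ≤ H.card := Nat.sInf_le ⟨H, rfl, hH0, hH⟩
      _ ≤ T'.card := hHc
      _ ≤ T.card := hT'c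
      _ = _ := hTc
  · obtain ⟨H', hH'c, hH'⟩ := Nat.sInf_mem (s := {k : ℕ | ∃ H : Finset
      (PiLp 2 (fun _ : Fin n => EuclideanSpace ℝ (Fin d)) × ℝ), H.card = k ∧
        Separates H (freePower K o n) 0}) ⟨H.card, H, rfl, hH0, hH⟩
    obtain ⟨S, hSc, hS⟩ := cover (compact_freePower hKc n) h0 H' hH'
    obtain ⟨S', hS'c, hS'⟩ := cover_preimage
      (PiLp.continuousLinearEquiv 2 ℝ (fun _ : Fin n => EuclideanSpace ℝ (Fin d))).symm _ S hS
    have e : (PiLp.continuousLinearEquiv 2 ℝ (fun _ : Fin n =>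
        EuclideanSpace ℝ (Fin d))).symm ⁻¹' polar (freePower K o n) 0 =
        power (polar K o) n := by
      rw [polar_freePower]
      ext x
      simp
    rw [e] at hS'
    calc covNum (power (polar K o) n) ≤ S'.card := covNum_le _ S' hS'
      _ ≤ S.card := hS'c
      _ ≤ H'.card := hSc
      _ = _ := hH'c

theorem polar_parallelotope_iff (hd : 1 ≤ d) (hK : Convex ℝ K) (hKc : IsCompact K)
    (ho : o ∈ interior K) : IsParallelotope (polar K o) ↔ IsCrossBody K o := by
  classical
  have hfr : finrank ℝ (EuclideanSpace ℝ (Fin d)) = d := by simp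
  have hPi := interior_polar_nonempty hKc ho
  have hPc := isCompact_polar ho
  have hP := convex_polar K o
  have heq := (Pool.Agent.H2R2.Frac.primal d hd (polar K o) hPc hP hPi).2
  constructor
  · intro h
    have hfrac := heq.2 h
    obtain ⟨b, c, l, hl, hb⟩ := Pool.Agent.H2R2.Frac.extremal_box
      (volume : Measure (EuclideanSpace ℝ (Fin d))) (polar K o) hPc hP hPi
      (by rw [hfr]; exact hd) (by rw [hfr]; exact hfrac)
    let e : Fin (finrank ℝ (EuclideanSpace ℝ (Fin d))) ≃ Fin d := finCongr hfr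
    have hb' : polar K o = {x | ∀ i, c (e.symm i) ≤ (b.reindex e) i x ∧
        (b.reindex e) i x ≤ c (e.symm i) + l (e.symm i)} := by
      rw [hb]
      ext x
      simp only [Set.mem_ofPred_eq, Basis.coe_reindex, Function.comp_apply]
      constructor
      · intro hx i; exact hx _
      · intro hx i
        have := hx (e i)
        simpa using this
    exact Pool.Agent.H2R2.Frac.cross_of_polar d hd K hKc hK o ho (b.reindex e)
      (fun i => c (e.symm i)) (fun i => l (e.symm i)) (fun i => hl _) hb'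
  · intro h
    refine heq.1 fun T w hw hcov => ?_
    obtain ⟨H, w', hw', hsum, hsep⟩ :=
      Pool.Agent.H2R2.Frac.transfer d K hKc o ho T w hw hcov
    exact ((Pool.Agent.H2R2.Frac.main d hd K hKc hK o ho).2.2 h H w' hw' hsep).trans hsum

end

/-- **Main theorem.** For every convex body `K` in `ℝ^d` and every interior point `o` of `K` the
numbers `s(K^(n), 0)^(1/n)` converge to their infimum `M`, and `1 ≤ M ≤ 2^d`, with `M = 2^d` exactly
for the cross-bodies centred at `o`. If `K` is not a cross-body centred at `o` then, for some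
constant `C` depending on `K` and `o` only, fewer than `2^(m + dn)` hyperplanes separate all faces
of the free sum of a convex body `L` in `ℝ^m` (about any interior point `p`) and `K^(n)` strictly
from `0`, for every `m ≥ 2` and every `n ≥ C log m`. -/
theorem result (d : ℕ) (hd : 1 ≤ d) (K : Set (EuclideanSpace ℝ (Fin d)))
    (hK : Convex ℝ K) (hKc : IsCompact K) (o : EuclideanSpace ℝ (Fin d)) (ho : o ∈ interior K) :
    (∃ M : ℝ, Tendsto (fun n : ℕ => (sepNum (freePower K o n) 0 : ℝ) ^ ((n : ℝ)⁻¹)) atTop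
        (𝓝 M) ∧
      1 ≤ M ∧ M ≤ 2 ^ d ∧ (M = 2 ^ d ↔ IsCrossBody K o) ∧
      ∀ n : ℕ, 1 ≤ n → M ^ n ≤ sepNum (freePower K o n) 0) ∧
    (¬ IsCrossBody K o → ∃ C : ℝ, ∀ m : ℕ, 2 ≤ m → ∀ L : Set (EuclideanSpace ℝ (Fin m)),
      Convex ℝ L → IsCompact L → ∀ p ∈ interior L, ∀ n : ℕ, C * Real.log m ≤ n →
      ∃ H : Finset (WithLp 2 (EuclideanSpace ℝ (Fin m) ×
          PiLp 2 (fun _ : Fin n => EuclideanSpace ℝ (Fin d))) × ℝ),
        Separates H (freeSum L p K o n) 0 ∧ H.card < 2 ^ (m + d * n)) := by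
  obtain ⟨⟨M, hM, hM1, hM2, hM3, hM4⟩, h2⟩ :=
    Pool.Agent.Results.MP_eba1ef_gt.PowersAndProducts.result d hd (polar K o) (convex_polar K o)
      (isCompact_polar ho) (interior_polar_nonempty hKc ho)
  rw [polar_parallelotope_iff hd hK hKc ho] at hM3 h2
  refine ⟨⟨M, ?_, hM1, hM2, hM3, fun n hn => ?_⟩, fun hnc => ?_⟩
  · refine hM.congr' ?_
    filter_upwards [eventually_ge_atTop 1] with n hn
    rw [sepNum_freePower hd hKc ho n hn]
  · rw [sepNum_freePower hd hKc ho n hn]
    exact hM4 n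
  · obtain ⟨C, hC⟩ := h2 hnc
    refine ⟨max C 1, fun m hm L hL hLc p hp n hn => ?_⟩
    have hm2 : (2 : ℝ) ≤ m := by exact_mod_cast hm
    have hlog : 0 < Real.log m := Real.log_pos (by linarith)
    have hn1 : 1 ≤ n := by
      have h1 : (1 : ℝ) * Real.log m ≤ max C 1 * Real.log m :=
        mul_le_mul_of_nonneg_right (le_max_right _ _) hlog.le
      have h2 : (0 : ℝ) < n := by linarith
      exact_mod_cast h2
    obtain ⟨T, hT, hTc⟩ := hC m hm (polar L p) (convex_polar L p) (isCompact_polar hp)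
      (interior_polar_nonempty hLc hp) n
      ((mul_le_mul_of_nonneg_right (le_max_left _ _) hlog.le).trans hn)
    obtain ⟨T', hT'c, hT'⟩ := cover_preimage
      ((WithLp.prodContinuousLinearEquiv 2 ℝ (EuclideanSpace ℝ (Fin m))
        (PiLp 2 (fun _ : Fin n => EuclideanSpace ℝ (Fin d)))).trans
        ((ContinuousLinearEquiv.refl ℝ _).prodCongr
          (PiLp.continuousLinearEquiv 2 ℝ (fun _ : Fin n => EuclideanSpace ℝ (Fin d))))) _ T hT
    rw [← polar_freeSum] at hT'
    obtain ⟨H, hHc, hH0, hH⟩ := separate (zero_mem_freeSum hp ho n hn1) T' hT'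
    exact ⟨H, ⟨hH0, hH⟩, (hHc.trans hT'c).trans_lt hTc⟩

end Pool.Agent.Results.MP_5e7226_co.FreeSumsOfPowers
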