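import Pool.Agent.X160.Cy.Cyl

set_option autoImplicit false

/-!
# MP_5e7226_co: intersections of cylinders, also with a body with faces of small dimension

`s(K, o)` is the least number of hyperplanes which separate all faces of `K` strictly from `o`; it is
also considered for unbounded closed convex sets.

1. (subadditivity) `s(C_1 ∩ ... ∩ C_m, o) ≤ s(C_1, o) + ... + s(C_m, o)` for closed convex sets `C_i`
   with `o` in the interior of the intersection.
2. If a convex body `K` is the intersection of cylinders `C_i` with bases of dimension at most `k_i`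
   (arbitrary directions, `k_i = 0` for a half-space), then `s(K, o) ≤ b(k_1) + ... + b(k_m)` with
   `b(0) = 1`, `b(1) = 2`, `b(2) = 4`, `b(3) = 13` and `b(k) = 3 · 2^k k log (2 k² + 2 k + 1)` for
   `k ≥ 4`. For instance `s(K, o) ≤ 2^d` for all intersections of `2^(d-2)` cylinders with planar bases.
3. The same with few additional hyperplanes if only the faces of `K` of dimension `≥ l` are carried
   by the cylinders `C_i ⊇ K`, that is if every face of `K` of dimension `≥ l` lies in a hyperplane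
   which does not cut all of the `C_i`. In particular `s(K, o) < 2^d` if `d ≥ 1024`, `l ≤ d / 5` and
   `∑ b(k_i) ≤ (1 - 1/d) 2^d`, or, for `K` symmetric about `o`, if `(d - 2l)² ≥ 8 d log d` and
   `∑ b(k_i) ≤ (1 - 4/d) 2^d`.
4. This applies to `K = S ∩ C_1 ∩ ... ∩ C_m`, where all faces of the convex body `S` have dimension
   less than `l` (`l = 1` if `S` is strictly convex).

The polar body of an intersection is the convex hull of the polar sets, the polar set of a cylinder
has the dimension of its base, and the polar bodies are covered by translates of their interiors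
with the directions of `LowDimensionalExceptions` (`MP_eba1ef_gt`).
-/

open scoped RealInnerProductSpace
open Module Set

namespace Pool.Agent.Results.MP_5e7226_co.IntersectionsOfCylinders

/-- The Euclidean space `ℝ^d`. -/
abbrev E (d : ℕ) : Type := EuclideanSpace ℝ (Fin d)

variable {d m : ℕ}

/-- `K` is a convex body and `o` an interior point. -/
def IsPair (K : Set (E d)) (o : E d) : Prop :=
  Convex ℝ K ∧ IsCompact K ∧ o ∈ interior K

/-- The polar body of `K` with respect to `o`. -/
def polar (K : Set (E d)) (o : E d) : Set (E d) :=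
  {v | ∀ y ∈ K, ⟪v, y - o⟫ ≤ 1}

/-- The hyperplanes `{x | ⟪h.1, x⟫ = h.2}`, `h ∈ H`, separate the faces of `K` from `o`: each face of
`K`, that is the set of the points of `K` at which a functional `⟪u, ·⟫`, `u ≠ 0`, is maximal on `K`,
is strictly separated from `o` by one of them. -/
def Separates (H : Finset (E d × ℝ)) (K : Set (E d)) (o : E d) : Prop :=
  (∀ h ∈ H, h.1 ≠ 0) ∧
    ∀ u x₀ : E d, u ≠ 0 → x₀ ∈ K → (∀ y ∈ K, ⟪u, y⟫ ≤ ⟪u, x₀⟫) →
      ∃ h ∈ H, ⟪h.1, o⟫ < h.2 ∧ ∀ x ∈ K, ⟪u, x⟫ = ⟪u, x₀⟫ → h.2 < ⟪h.1, x⟫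

/-- `C` is a closed convex set which is invariant under the translations of a subspace of
codimension at most `k`, i.e. a cylinder with a base of dimension at most `k`; the cylinders of
type `0` are the closed half-spaces. -/
def Cylinder (k : ℕ) (C : Set (E d)) : Prop :=
  (k = 0 ∧ ∃ (a : E d) (t : ℝ), C = {y | ⟪a, y⟫ ≤ t}) ∨
    (Convex ℝ C ∧ IsClosed C ∧ ∃ Λ : Submodule ℝ (E d), d ≤ finrank ℝ Λ + k ∧
      ∀ x ∈ C, ∀ v ∈ Λ, x + v ∈ C)

/-- `b(k) = 2^k` for `k ≤ 2`, `b(3) = 13`, `b(k) = 3 · 2^k · k · log (2 k² + 2 k + 1)`, `k ≥ 4`. -/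
noncomputable def b (k : ℕ) : ℝ :=
  if k ≤ 2 then 2 ^ k else if k = 3 then 13 else
    3 * 2 ^ k * (k * Real.log (2 * k ^ 2 + 2 * k + 1))

/-- All faces `{y ∈ K | ⟪v, y - o⟫ = 1}` of `K`, where `v` is an extreme point of the polar body and
the hyperplane `⟪v, y - o⟫ = 1` cuts all the sets `C i` (each `C i` has points beyond it), have
dimension less than `l`. -/
def SmallFaces (K : Set (E d)) (o : E d) (l : ℕ) (C : Fin m → Set (E d)) : Prop :=
  ∀ v ∈ extremePoints ℝ (polar K o), (∀ i, ∃ y ∈ C i, 1 < ⟪v, y - o⟫) →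
    finrank ℝ (vectorSpan ℝ {y ∈ K | ⟪v, y - o⟫ = 1}) < l

/-- Fewer than `2 ^ d` hyperplanes separate the faces of `K` from `o`. -/
def Fewer (K : Set (E d)) (o : E d) : Prop :=
  ∃ H : Finset (E d × ℝ), Separates H K o ∧ H.card < 2 ^ d

/-- At most `N` hyperplanes separate the faces of `K` from `o`. -/
def AtMost (N : ℝ) (K : Set (E d)) (o : E d) : Prop :=
  ∃ H : Finset (E d × ℝ), Separates H K o ∧ (H.card : ℝ) ≤ N

/-- The bounds of the theorem for bodies with faces of dimension less than `l` and exceptional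
faces of cost `β`. -/
def Bounds (K : Set (E d)) (o : E d) (l : ℕ) (β : ℝ) : Prop :=
  (∀ τ : ℝ, 0 < τ → τ < 1 → AtMost (β + (1 + 4 * (d * (d + 1)) * Real.log (20 * d ^ 6 + 1) *
    (((2 - τ) / τ) ^ l / (1 - τ) ^ d))) K o) ∧
  (1024 ≤ d → 5 * l ≤ d → β ≤ (1 - 1 / (d : ℝ)) * 2 ^ d → Fewer K o) ∧
  ((∀ y ∈ K, o - (y - o) ∈ K) → 2 ≤ d → 2 * l ≤ d →
    8 * (d * Real.log d) ≤ (d - 2 * l : ℝ) ^ 2 → β ≤ (1 - 4 / (d : ℝ)) * 2 ^ d → Fewer K o)

/-- **Main theorem.** -/
theorem result :
    -- (1) subadditivity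
    (∀ (d m : ℕ) (K : Set (E d)) (o : E d) (C : Fin m → Set (E d))
      (H : Fin m → Finset (E d × ℝ)), 1 ≤ m → o ∈ interior K →
      (∀ i, Convex ℝ (C i) ∧ IsClosed (C i)) → K = ⋂ i, C i → (∀ i, Separates (H i) (C i) o) →
      ∃ H' : Finset (E d × ℝ), Separates H' K o ∧ H'.card ≤ ∑ i, (H i).card) ∧
    -- (2) intersections of cylinders
    (∀ (d m : ℕ) (K : Set (E d)) (o : E d) (C : Fin m → Set (E d)) (k : Fin m → ℕ), 1 ≤ d →
      IsPair K o → (∀ i, Cylinder (k i) (C i)) → K = ⋂ i, C i → AtMost (∑ i, b (k i)) K o) ∧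
    -- (3) bodies whose faces of dimension at least `l` are carried by cylinders
    (∀ (d m l : ℕ) (K : Set (E d)) (o : E d) (C : Fin m → Set (E d)) (k : Fin m → ℕ), 1 ≤ d →
      IsPair K o → (∀ i, Cylinder (k i) (C i) ∧ K ⊆ C i) → SmallFaces K o l C →
      Bounds K o l (∑ i, b (k i))) ∧
    -- (4) intersections of cylinders with a body with faces of small dimension
    (∀ (d m l : ℕ) (K S : Set (E d)) (o : E d) (C : Fin m → Set (E d)) (k : Fin m → ℕ), 1 ≤ d →
      IsPair K o → IsPair S o → SmallFaces S o l (![] : Fin 0 → Set (E d)) →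
      (∀ i, Cylinder (k i) (C i)) → K = S ∩ ⋂ i, C i → Bounds K o l (∑ i, b (k i))) := by
  refine ⟨?_, ?_, ?_, ?_⟩
  · intro d m K o C H hm ho hC hK hH
    obtain ⟨H', h1, h2⟩ := Pool.Agent.X160.Cy.separates_inter hm ho C hC hK H hH
    exact ⟨H', h2, h1⟩
  · intro d m K o C k hd hK hC h
    exact Pool.Agent.X160.Cy.inter_cyl hd hK C k hC h
  · intro d m l K o C k hd hK hC hS
    exact Pool.Agent.X160.Cy.bounds hd hK C k (fun i => (hC i).1) (fun i => (hC i).2) hS
  · intro d m l K S o C k hd hK hS hSf hC h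
    have hKC : ∀ i, K ⊆ C i := fun i => by
      rw [h]
      exact inter_subset_right.trans (iInter_subset _ i)
    refine Pool.Agent.X160.Cy.bounds hd hK C k hC hKC ?_
    exact Pool.Agent.X160.Cy.small_inter hK C
      (fun i => Pool.Agent.X160.Cy.Cylinder.closed (hC i)) hS
      (fun v hv => hSf v hv (fun i => i.elim0)) h

end Pool.Agent.Results.MP_5e7226_co.IntersectionsOfCylinders
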