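import Mathlib
import Pool.Agent.X160.Ten.Emb
import Pool.Agent.TH591.Lie.Final

set_option autoImplicit false

/-!
# MP_5e7226_co: rotation invariant convex bodies of forms and of tensors of one type

Let `K` be a convex body in a Euclidean space of dimension `d ≥ 2` and `o` an interior point, with
`K - o ⊆ -a (K - o)` (`a = 1` for the bodies which are symmetric about `o`).

1. Scalar Casimir operator. Suppose that `K` is invariant, about `o`, under the operators
   `exp (∑ b_i X_i)` for skew-symmetric operators `X_i` with `-∑ X_i² = q`, and that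
   `‖∑ b_i X_i‖ ≤ κ` for `∑ b_i² ≤ 1`. Then the faces of `K` can be separated from `o` by
   `1 + 13 d log(2d²+2d+1) 2^d e^(-s)` hyperplanes with `s = q / (480 κ² (1 + a)²)`, and by less than
   `2^d` if `s ≥ 5 + 2 log d`. The `X_i` need not span a Lie algebra.
2. Tensors of one type. Let `V` be a space of tensors of degree `k < n` over `ℝ^n` which is invariant
   under the rotations, consists of traceless tensors on which the sum of all transpositions is a
   scalar, and which are antisymmetric in the slots of each of `r` columns. (For instance the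
   irreducible representation of `O(n)` given by a Young diagram with `k` boxes and `r` columns.) Then
   the bound of 1 holds with `s = (n - k) / (960 r (1 + a)²)` for all convex bodies in `V` which are
   invariant under rotations about `o`. So less than `2^d` hyperplanes suffice for the symmetric ones
   whenever `27000 r k log n ≤ n`.
3. Forms. For the alternating tensors (`r = 1`; the dimension is `d = binom(n, k)`) one has
   `s = (n - k) / (960 (1 + a)²)`, and less than `2^d` hyperplanes suffice for all symmetric rotation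
   invariant bodies of `k`-forms on `ℝ^n` with `131072 k ≤ n`.

The theorem `AsymmetricLieSymmetries` of the starting files gives, for a representation of `SO(n)` of
degree `k`, the value `s = (n - 2) / (960 k² (1 + a)²)`, which is useful for `k` up to about
`(n / log n)^(1/3)` only, in 2 and 3. The proof applies the covering theorem
`MP_eba1ef_gt.RotationInvariantTensors` to the polar body about `o`, which has the same symmetries and
the same asymmetry; see there for the ideas.
-/

namespace Pool.Agent.Results.MP_5e7226_co.RotationInvariantTensors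

open scoped InnerProductSpace
open Module Finset

/-- `K` and `o` are separated by `H`: every face of `K` (the set of the points of `K` at which a
functional `⟪u, ·⟫`, `u ≠ 0`, is maximal on `K`) is strictly separated from `o` by one of the
hyperplanes `{x | ⟪h.1, x⟫ = h.2}` with `h ∈ H`. -/
def SeparatesFaces {E : Type*} [NormedAddCommGroup E] [InnerProductSpace ℝ E] (K : Set E) (o : E)
    (H : Finset (E × ℝ)) : Prop :=
  (∀ h ∈ H, h.1 ≠ 0) ∧
    ∀ u x₀ : E, u ≠ 0 → x₀ ∈ K → (∀ y ∈ K, ⟪u, y⟫_ℝ ≤ ⟪u, x₀⟫_ℝ) →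
      ∃ h ∈ H, ⟪h.1, o⟫_ℝ < h.2 ∧ ∀ x ∈ K, ⟪u, x⟫_ℝ = ⟪u, x₀⟫_ℝ → h.2 < ⟪h.1, x⟫_ℝ

/-- The bounds of the theorem, in terms of the parameter `s`: at most
`1 + 13 d log(2d²+2d+1) 2^d e^(-s)` hyperplanes suffice, and less than `2^d` if
`s ≥ 5 + 2 log d`, where `d` is the dimension. -/
def FewHyperplanes {E : Type*} [NormedAddCommGroup E] [InnerProductSpace ℝ E] (K : Set E) (o : E)
    (s : ℝ) : Prop :=
  ∃ H : Finset (E × ℝ), SeparatesFaces K o H ∧
    (H.card : ℝ) ≤ 1 + 13 * finrank ℝ E * Real.log (2 * finrank ℝ E ^ 2 + 2 * finrank ℝ E + 1)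
      * 2 ^ finrank ℝ E * Real.exp (-s) ∧
    (5 + 2 * Real.log (finrank ℝ E) ≤ s → H.card < 2 ^ finrank ℝ E)

/-- Less than `2^d` hyperplanes separate the faces of `K` from `o`. -/
def Fewer {E : Type*} [NormedAddCommGroup E] [InnerProductSpace ℝ E] (K : Set E) (o : E)
    (d : ℕ) : Prop :=
  ∃ H : Finset (E × ℝ), SeparatesFaces K o H ∧ H.card < 2 ^ d

/-- `K` is a convex body with interior point `o` and `K - o ⊆ -a (K - o)`. -/
def IsBody {E : Type*} [NormedAddCommGroup E] [InnerProductSpace ℝ E] (K : Set E) (o : E)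
    (a : ℝ) : Prop :=
  Convex ℝ K ∧ IsCompact K ∧ o ∈ interior K ∧ 0 < a ∧ ∀ x ∈ K, o - a⁻¹ • (x - o) ∈ K

/-- The operators `X i` are skew-symmetric, `-∑ X_i²` is the scalar `q`, and the norm of
`∑ b_i X_i` is at most `κ` if `∑ b_i² ≤ 1`. -/
def ScalarCasimir {E : Type*} [NormedAddCommGroup E] [InnerProductSpace ℝ E] {ι : Type} [Fintype ι]
    (X : ι → E →L[ℝ] E) (q κ : ℝ) : Prop :=
  (∀ i x y, ⟪X i x, y⟫_ℝ = -⟪x, X i y⟫_ℝ) ∧
  (∀ x, -∑ i, X i (X i x) = q • x) ∧
  (∀ b : ι → ℝ, ∑ i, b i ^ 2 ≤ 1 → ∀ x, ‖∑ i, b i • X i x‖ ≤ κ * ‖x‖)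

/-- Tensors of degree `k` over `ℝ^n`, given by their coordinates `x (i_1, ..., i_k)`. -/
abbrev Tensor (n k : ℕ) := (Fin k → Fin n) → ℝ

/-- The rotation `U` of `ℝ^n` acting on the tensor `x`: the coordinates of the result are
`∑_j U(i_1,j_1) ⋯ U(i_k,j_k) x(j_1, ..., j_k)`. -/
noncomputable def rotate {n k : ℕ} (U : Matrix.specialOrthogonalGroup (Fin n) ℝ)
    (x : Tensor n k) : Tensor n k :=
  fun i => ∑ j : Fin k → Fin n, (∏ l, (U : Matrix (Fin n) (Fin n) ℝ) (i l) (j l)) * x j

/-- All contractions of the tensor `x` are zero. -/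
def Traceless {n k : ℕ} (x : Tensor n k) : Prop :=
  ∀ l m : Fin k, l ≠ m → ∀ i : Fin k → Fin n,
    ∑ b, x (Function.update (Function.update i l b) m b) = 0

/-- The sum of all tensors obtained from `x` by the transposition of two slots (every pair of slots
counted twice) is `s x`. -/
def SwapSum {n k : ℕ} (s : ℝ) (x : Tensor n k) : Prop :=
  ∀ i : Fin k → Fin n, ∑ l : Fin k, ∑ m ∈ univ.filter (fun m => m ≠ l),
    x (i ∘ Equiv.swap l m) = s * x i

/-- The tensor `x` changes its sign under the transposition of two slots in the same column, where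
the slot `l` belongs to the column `col l`. -/
def ColSkew {n k r : ℕ} (col : Fin k → Fin r) (x : Tensor n k) : Prop :=
  ∀ l m : Fin k, l ≠ m → col l = col m → ∀ i : Fin k → Fin n, x (i ∘ Equiv.swap l m) = -x i

/-- The tensor `x` is alternating (a `k`-form). -/
def Alternating {n k : ℕ} (x : Tensor n k) : Prop :=
  ∀ l m : Fin k, l ≠ m → ∀ i : Fin k → Fin n, x (i ∘ Equiv.swap l m) = -x i

/-- `J` identifies the Euclidean space `V` with a space of tensors: the norm is the Euclidean norm of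
the array of coordinates. -/
def IsEmbedding {n k : ℕ} {V : Type} [NormedAddCommGroup V] [InnerProductSpace ℝ V]
    (J : V →ₗ[ℝ] Tensor n k) : Prop :=
  ∀ v, ‖v‖ ^ 2 = ∑ i, J v i ^ 2

/-- `V` is (by `J`) a space of tensors which is invariant under rotations, all contractions of its
elements are zero, the sum of the transpositions acts on it as the scalar `s`, and its elements are
antisymmetric in the slots of each column. -/
def IsType {n k r : ℕ} {V : Type} [NormedAddCommGroup V] [InnerProductSpace ℝ V]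
    (J : V →ₗ[ℝ] Tensor n k) (s : ℝ) (col : Fin k → Fin r) : Prop :=
  IsEmbedding J ∧ (∀ U : Matrix.specialOrthogonalGroup (Fin n) ℝ, ∀ v, ∃ w, J w = rotate U (J v)) ∧
  ∀ v, Traceless (J v) ∧ SwapSum s (J v) ∧ ColSkew col (J v)

/-- The set `K` of tensors is invariant under rotations about `o`. -/
def Invariant {n k : ℕ} {V : Type} [NormedAddCommGroup V] [InnerProductSpace ℝ V]
    (J : V →ₗ[ℝ] Tensor n k) (K : Set V) (o : V) : Prop :=
  ∀ U : Matrix.specialOrthogonalGroup (Fin n) ℝ, ∀ x ∈ K, ∀ y, J y = rotate U (J (x - o)) → o + y ∈ K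

/-- `K` is invariant, about `o`, under the operators `exp (∑ b_i X_i)`. -/
def FlowInvariant {E : Type*} [NormedAddCommGroup E] [InnerProductSpace ℝ E] {ι : Type} [Fintype ι]
    (X : ι → E →L[ℝ] E) (K : Set E) (o : E) : Prop :=
  ∀ b : ι → ℝ, ∀ x ∈ K, o + NormedSpace.exp (∑ i, b i • X i) (x - o) ∈ K

/-- From coverings of the polar body to hyperplanes. -/
theorem few_of_cover {E : Type*} [NormedAddCommGroup E] [InnerProductSpace ℝ E]
    [FiniteDimensional ℝ E] (K : Set E) (o : E) (ho : o ∈ interior K) (hd : 2 ≤ finrank ℝ E) (s : ℝ)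
    (h : ∃ T : Finset E, TH591.Lie.polarAt K o
        ⊆ ⋃ t ∈ T, (fun x => t + x) '' interior (TH591.Lie.polarAt K o) ∧
      (T.card : ℝ) ≤ 1 + 13 * finrank ℝ E * Real.log (2 * finrank ℝ E ^ 2 + 2 * finrank ℝ E + 1)
        * 2 ^ finrank ℝ E * Real.exp (-s)) : FewHyperplanes K o s := by
  obtain ⟨T, hT1, hT2⟩ := h
  obtain ⟨H, hH, hsep⟩ := TH591.Lie.sep_of_cover K o ho T hT1
  have hH' : (H.card : ℝ) ≤ T.card := by exact_mod_cast hH
  exact ⟨H, hsep, hH'.trans hT2, fun hs => Y368.Lie.strict _ hd _ _ (hH'.trans hT2) hs⟩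

theorem polar_asym {E : Type*} [NormedAddCommGroup E] [InnerProductSpace ℝ E] (K : Set E) (o : E)
    (a : ℝ) (hKa : ∀ x ∈ K, o - a⁻¹ • (x - o) ∈ K) :
    ∀ v ∈ TH591.Lie.polarAt K o, -(a⁻¹ • v) ∈ TH591.Lie.polarAt K o := by
  intro v hv y hy
  have h1 := hv _ (hKa y hy)
  rw [sub_sub_cancel_left, inner_neg_right, real_inner_smul_right] at h1
  rw [inner_neg_left, real_inner_smul_left]
  exact h1

theorem inner_emb {n k : ℕ} {V : Type} [NormedAddCommGroup V] [InnerProductSpace ℝ V]
    (J : V →ₗ[ℝ] Tensor n k) (hJ : IsEmbedding J) (v w : V) :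
    ⟪v, w⟫_ℝ = ∑ i, J v i * J w i := by
  rw [← (X160.Ten.emb J hJ).inner_map_map v w, PiLp.inner_apply]
  refine Finset.sum_congr rfl fun i _ => ?_
  rw [RCLike.inner_apply, conj_trivial, mul_comm]
  rfl

theorem sum_rotate {n k : ℕ} (U : Matrix.specialOrthogonalGroup (Fin n) ℝ) (x y : Tensor n k) :
    ∑ i, rotate U x i * y i = ∑ i, x i * rotate U⁻¹ y i := by
  have hinv : ∀ a b, ((U⁻¹ : Matrix.specialOrthogonalGroup (Fin n) ℝ) : Matrix (Fin n) (Fin n) ℝ) a b
      = (U : Matrix (Fin n) (Fin n) ℝ) b a := fun a b => rfl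
  simp only [rotate, hinv, Finset.mul_sum, Finset.sum_mul]
  rw [Finset.sum_comm]
  refine Finset.sum_congr rfl fun i _ => Finset.sum_congr rfl fun j _ => ?_
  ring

/-- The bound for tensors of one type. -/
theorem few_type {n k r : ℕ} (hk : 1 ≤ k) (hr : 1 ≤ r) (hkn : k < n) {V : Type}
    [NormedAddCommGroup V] [InnerProductSpace ℝ V]
    (J : V →ₗ[ℝ] Tensor n k) (s : ℝ) (col : Fin k → Fin r) (hW : IsType J s col)
    (K : Set V) (o : V) (a : ℝ) (hd : 2 ≤ finrank ℝ V) (hK : IsBody K o a)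
    (hinv : Invariant J K o) :
    FewHyperplanes K o (((n : ℝ) - k) / (960 * r * (1 + a) ^ 2)) := by
  obtain ⟨hKc, hKcc, ho, ha, hKa⟩ := hK
  obtain ⟨w0, w1, w2⟩ := hW
  have _ : FiniteDimensional ℝ V := Module.finite_of_finrank_pos (by omega)
  refine few_of_cover K o ho hd _ ?_
  refine X160.Ten.cover_emb hk hr hkn J w0 (fun U v => by
      obtain ⟨w, hw⟩ := w1 U v
      exact ⟨w, fun i => congrFun hw i⟩) s (fun v => (w2 v).1) (fun v => (w2 v).2.1) col
    (fun v => (w2 v).2.2) _ hd (TH591.Lie.polarAt_convex K o)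
    (TH591.Lie.polarAt_compact K o ho) (TH591.Lie.polarAt_interior K hKcc o ho) a ha
    (polar_asym K o a hKa) ?_
  intro U v hv w hw y hy
  have hw' : J w = rotate U (J v) := funext hw
  obtain ⟨z, hz⟩ := w1 U⁻¹ (y - o)
  have h1 := hv _ (hinv U⁻¹ y hy z hz)
  rw [add_sub_cancel_left] at h1
  rw [inner_emb J w0, hw', sum_rotate, ← hz, ← inner_emb J w0]
  exact h1

theorem alternating_rot {n k : ℕ} (U : Matrix.specialOrthogonalGroup (Fin n) ℝ)
    (x : Tensor n k) (hx : Alternating x) : Alternating (rotate U x) := by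
  intro l m hlm i
  show ∑ j : Fin k → Fin n, (∏ p, (U : Matrix (Fin n) (Fin n) ℝ) ((i ∘ Equiv.swap l m) p) (j p)) * x j
    = -∑ j : Fin k → Fin n, (∏ p, (U : Matrix (Fin n) (Fin n) ℝ) (i p) (j p)) * x j
  rw [← Equiv.sum_comp (Equiv.arrowCongr (Equiv.swap l m) (Equiv.refl (Fin n))),
    ← Finset.sum_neg_distrib]
  refine Finset.sum_congr rfl fun j _ => ?_
  have h1 : (Equiv.arrowCongr (Equiv.swap l m) (Equiv.refl (Fin n))) j = j ∘ Equiv.swap l m := by
    ext p
    simp [Equiv.arrowCongr]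
  rw [h1, hx l m hlm j]
  have h2 : ∏ p, (U : Matrix (Fin n) (Fin n) ℝ) ((i ∘ Equiv.swap l m) p) ((j ∘ Equiv.swap l m) p)
      = ∏ p, (U : Matrix (Fin n) (Fin n) ℝ) (i p) (j p) :=
    Equiv.prod_comp (Equiv.swap l m) (fun p => (U : Matrix (Fin n) (Fin n) ℝ) (i p) (j p))
  rw [h2]
  ring

/-- The `k`-forms are of one type, with one column. -/
theorem alternating_type {n k : ℕ} {V : Type} [NormedAddCommGroup V] [InnerProductSpace ℝ V]
    (J : V →ₗ[ℝ] Tensor n k) (hJ : IsEmbedding J)
    (h : ∀ x : Tensor n k, (∃ v, J v = x) ↔ Alternating x) :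
    IsType J (-(k * ((k : ℝ) - 1))) (fun _ : Fin k => (0 : Fin 1)) := by
  have h1 : ∀ v, Alternating (J v) := fun v => (h _).mp ⟨v, rfl⟩
  refine ⟨hJ, fun U v => (h _).mpr (alternating_rot U _ (h1 v)), fun v => ⟨?_, ?_, ?_⟩⟩
  · exact X160.Ten.alt_traceless (x := WithLp.toLp 2 (J v)) (h1 v)
  · exact X160.Ten.alt_swapSum (x := WithLp.toLp 2 (J v)) (h1 v)
  · intro l m hlm _ i
    exact h1 v l m hlm i

theorem choose_log {n k : ℕ} (hk : 1 ≤ k) (hkn : k ≤ n) :
    Real.log (n.choose k) ≤ k * (1 + Real.log ((n : ℝ) / k)) := by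
  have hk0 : (0 : ℝ) < k := by exact_mod_cast hk
  have hn0 : (0 : ℝ) < n := by
    have : 1 ≤ n := hk.trans hkn
    exact_mod_cast this
  have h1 : ((n.choose k : ℕ) : ℝ) ≤ (n : ℝ) ^ k / (k.factorial : ℝ) := Nat.choose_le_pow_div k n
  have h2 := Real.pow_div_factorial_le_exp (k : ℝ) hk0.le k
  have h3 : (n : ℝ) ^ k / (k.factorial : ℝ) ≤ ((n : ℝ) / k) ^ k * Real.exp k := by
    have e : (n : ℝ) ^ k / (k.factorial : ℝ) = ((n : ℝ) / k) ^ k * ((k : ℝ) ^ k / k.factorial) := by
      rw [div_pow]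
      field_simp
    rw [e]
    exact mul_le_mul_of_nonneg_left h2 (by positivity)
  have hc : (0 : ℝ) < n.choose k := by exact_mod_cast Nat.choose_pos hkn
  have h4 := Real.log_le_log hc (h1.trans h3)
  rw [Real.log_mul (by positivity) (by positivity), Real.log_pow, Real.log_exp] at h4
  linarith

theorem forms_num {n k : ℕ} (hk : 1 ≤ k) (hkn : 131072 * k ≤ n) :
    5 + 2 * Real.log (n.choose k) ≤ ((n : ℝ) - k) / (960 * (1 : ℕ) * (1 + 1) ^ 2) := by
  have hk0 : (1 : ℝ) ≤ k := by exact_mod_cast hk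
  have hkn' : 131072 * (k : ℝ) ≤ n := by exact_mod_cast hkn
  have h1 := choose_log hk (by omega : k ≤ n)
  set t : ℝ := (n : ℝ) / k with ht
  have ht1 : 131072 ≤ t := by
    rw [ht, le_div_iff₀ (by linarith)]
    exact hkn'
  have hnt : (n : ℝ) = k * t := by
    rw [ht]
    field_simp
  have hlog2 : Real.log 131072 ≤ 11.7836 := by
    have e : (131072 : ℝ) = 2 ^ 17 := by norm_num
    rw [e, Real.log_pow]
    have := Real.log_two_lt_d9
    push_cast
    linarith
  have h2 : Real.log t ≤ Real.log 131072 + (t / 131072 - 1) := by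
    have h3 := Real.log_le_sub_one_of_pos (show 0 < t / 131072 by positivity)
    rw [Real.log_div (by positivity) (by norm_num)] at h3
    linarith
  have h4 : 1 + Real.log t ≤ t * (12.7836 / 131072) := by
    nlinarith
  have h5 : 2 * (k * (1 + Real.log t)) ≤ 2 * (k * (t * (12.7836 / 131072))) := by
    gcongr
  have h6 : (k : ℝ) ≤ k * t / 131072 := by
    rw [le_div_iff₀ (by norm_num)]
    nlinarith
  rw [hnt]
  push_cast
  rw [le_div_iff₀ (by norm_num)]
  nlinarith

theorem type_num {n k r d : ℕ} (hk : 1 ≤ k) (hr : 1 ≤ r) (hkn : k < n) (hd : 2 ≤ d)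
    (hdn : d ≤ n ^ k) (h : 27000 * (r * k * Real.log n) ≤ n) :
    5 + 2 * Real.log d ≤ ((n : ℝ) - k) / (960 * r * (1 + 1) ^ 2) := by
  have hk0 : (1 : ℝ) ≤ k := by exact_mod_cast hk
  have hr0 : (1 : ℝ) ≤ r := by exact_mod_cast hr
  have hn2 : (2 : ℝ) ≤ n := by
    have : 2 ≤ n := by omega
    exact_mod_cast this
  have hlog2 : (0.69 : ℝ) ≤ Real.log n := by
    have h1 : Real.log 2 ≤ Real.log n := Real.log_le_log (by norm_num) hn2
    have := Real.log_two_gt_d9
    linarith
  have hrk : (1 : ℝ) ≤ r * k := by nlinarith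
  have hL0 : (0.69 : ℝ) ≤ r * k * Real.log n := by nlinarith
  have hn : (18000 : ℝ) ≤ n := by linarith
  have hL1 : 1 ≤ Real.log n := by
    have h1 : Real.log (Real.exp 1) ≤ Real.log n := by
      refine Real.log_le_log (Real.exp_pos 1) ?_
      have := Real.exp_one_lt_d9
      linarith
    rwa [Real.log_exp] at h1
  have h1 : Real.log d ≤ k * Real.log n := by
    have h2 : (d : ℝ) ≤ (n : ℝ) ^ k := by exact_mod_cast hdn
    have h3 := Real.log_le_log (by positivity : (0 : ℝ) < d) h2
    rwa [Real.log_pow] at h3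
  have h2 : (k : ℝ) ≤ r * k * Real.log n := by
    have : (k : ℝ) * 1 ≤ (r * k) * Real.log n :=
      mul_le_mul (by nlinarith) hL1 (by norm_num) (by positivity)
    linarith
  have h3 : (r : ℝ) ≤ r * k * Real.log n := by
    have : (r : ℝ) * 1 ≤ (r * k) * Real.log n :=
      mul_le_mul (by nlinarith) hL1 (by norm_num) (by positivity)
    linarith
  rw [le_div_iff₀ (by positivity)]
  have h4 : (5 + 2 * Real.log d) * (960 * r * (1 + 1) ^ 2)
      ≤ (5 + 2 * (k * Real.log n)) * (960 * r * (1 + 1) ^ 2) := by gcongr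
  refine h4.trans ?_
  have h5 : (5 + 2 * (k * Real.log n)) * (960 * r * (1 + 1) ^ 2)
      = 19200 * r + 7680 * (r * k * Real.log n) := by ring
  rw [h5]
  linarith

/-- The conclusion for the space `V` of tensors, with `d = dim V`: for every convex body `K` in `V`
with interior point `o` and `K - o ⊆ -a (K - o)` which is invariant under rotations about `o` the
bounds `FewHyperplanes` hold with `s = (n - k) / (960 r (1 + a)²)`, and if the condition `P` holds and
`K` is symmetric about `o` then less than `2^d` hyperplanes suffice. -/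
def BodiesIn {n k : ℕ} {V : Type} [NormedAddCommGroup V] [InnerProductSpace ℝ V]
    (J : V →ₗ[ℝ] Tensor n k) (r : ℕ) (P : Prop) : Prop :=
  ∀ (K : Set V) (o : V), Invariant J K o →
    (∀ a : ℝ, IsBody K o a → FewHyperplanes K o (((n : ℝ) - k) / (960 * r * (1 + a) ^ 2))) ∧
    (P → IsBody K o 1 → Fewer K o (finrank ℝ V))

theorem result :
    -- 1. operators with a scalar Casimir operator
    (∀ (E : Type) [NormedAddCommGroup E] [InnerProductSpace ℝ E] [FiniteDimensional ℝ E]
      (K : Set E) (o : E) (a : ℝ), 2 ≤ finrank ℝ E → IsBody K o a →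
      ∀ (ι : Type) [Fintype ι] (X : ι → E →L[ℝ] E) (q κ : ℝ), 0 < q → 0 < κ →
        ScalarCasimir X q κ → FlowInvariant X K o →
        FewHyperplanes K o (q / (480 * κ ^ 2 * (1 + a) ^ 2))) ∧
    (∀ (n k : ℕ) (V : Type) [NormedAddCommGroup V] [InnerProductSpace ℝ V]
      (J : V →ₗ[ℝ] Tensor n k), 1 ≤ k → k < n →
      -- 2. rotation invariant bodies of tensors of one type
      (∀ (r : ℕ) (s : ℝ) (col : Fin k → Fin r), 1 ≤ r → IsType J s col → 2 ≤ finrank ℝ V →
        BodiesIn J r (27000 * (r * k * Real.log n) ≤ n)) ∧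
      -- 3. rotation invariant bodies of forms
      (IsEmbedding J → (∀ x : Tensor n k, (∃ v, J v = x) ↔ Alternating x) →
        finrank ℝ V = n.choose k ∧ BodiesIn J 1 (131072 * k ≤ n))) := by
  refine ⟨?_, ?_⟩
  · rintro E _ _ _ K o a hd ⟨hK, hKc, ho, ha, hKa⟩ ι _ X q κ hq hκ ⟨hX, hcas, hn⟩ hinv
    let _ : MeasurableSpace E := borel E
    have _ : BorelSpace E := ⟨rfl⟩
    refine few_of_cover K o ho hd _ ?_
    refine Y368.Lie.cover_scalar' X hX q hq hcas κ hκ hn _ hd (TH591.Lie.polarAt_convex K o)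
      (TH591.Lie.polarAt_compact K o ho) (TH591.Lie.polarAt_interior K hKc o ho) a ha
      (polar_asym K o a hKa) ?_
    intro b v hv y hy
    set S := ∑ i, b i • X i with hS
    have hSk : ∀ x y, ⟪S x, y⟫_ℝ = -⟪x, S y⟫_ℝ := TH591.Lie.comb_skew' Finset.univ X hX b
    have h1 := hinv (-b) y hy
    have e1 : ∑ i, (-b) i • X i = (-1 : ℝ) • S := by
      rw [hS, Finset.smul_sum]
      refine Finset.sum_congr rfl fun i _ => ?_
      rw [Pi.neg_apply, neg_smul, neg_smul, one_smul]
    rw [e1] at h1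
    have h2 := hv _ h1
    rw [add_sub_cancel_left, ← TH591.Lie.flow_inner S hSk 1, TH591.Lie.flow_neg', one_smul] at h2
    exact h2
  · intro n k V _ _ J hk hkn
    refine ⟨fun r s col hr hW hd K o hinv =>
      ⟨fun a ha => few_type hk hr hkn J s col hW K o a hd ha hinv,
      fun hn h1 => ?_⟩, fun hJ h => ?_⟩
    · obtain ⟨T, hT1, -, hT3⟩ := few_type hk hr hkn J s col hW K o 1 hd h1 hinv
      exact ⟨T, hT1, hT3 (type_num hk hr hkn hd (X160.Ten.finrank_emb_le J hW.1) hn)⟩
    · have hdim : finrank ℝ V = n.choose k := X160.Ten.finrank_emb J hJ h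
      have hW := alternating_type J hJ h
      have hd2 : 2 ≤ finrank ℝ V := by
        rw [hdim]
        obtain ⟨k', rfl⟩ : ∃ k', k = k' + 1 := ⟨k - 1, by omega⟩
        obtain ⟨n', rfl⟩ : ∃ n', n = n' + 1 := ⟨n - 1, by omega⟩
        rw [Nat.choose_succ_succ']
        have h1 := Nat.choose_pos (show k' ≤ n' by omega)
        have h2 := Nat.choose_pos (show k' + 1 ≤ n' by omega)
        omega
      refine ⟨hdim, fun K o hinv =>
        ⟨fun a ha => few_type hk le_rfl hkn J _ _ hW K o a hd2 ha hinv, fun hn h1 => ?_⟩⟩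
      obtain ⟨T, hT1, -, hT3⟩ := few_type hk le_rfl hkn J _ _ hW K o 1 hd2 h1 hinv
      refine ⟨T, hT1, hT3 ?_⟩
      rw [hdim]
      exact forms_num hk hn

end Pool.Agent.Results.MP_5e7226_co.RotationInvariantTensors
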