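import Mathlib
import Pool.Agent.TH591.Sq.Body
import Pool.Agent.H985.Sep

set_option autoImplicit false

/-!
# MP_5e7226_co: sums and integrals of centrally symmetric sets of small dimension

Let `q ≥ 1`, let `K` be a convex body in `ℝ^d` and `o` an interior point such that
`max {⟪y, x - o⟫ : x ∈ K} = (∫ h_ω(y)^q dμ(ω))^(1/q)` for all `y`, where `h_ω` is the support
function of a centrally symmetric convex set of dimension at most `n` (a seminorm which vanishes on a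
subspace of codimension at most `n`). For `q = 1` the body is a Minkowski sum (or an integral) of
centrally symmetric sets of dimension at most `n`; for `n = q = 1` it is a zonoid, for instance a
zonotope. For `q > 1` these are the `L_q`-sums of Firey.

1. The faces of `K` can be separated from `o` by `1 + 13 d log(4d+1) 2^d e^(-2s)` hyperplanes,
   `s = √(d/(n+q+1)) / 16280`, and by less than `2^d` if `s ≥ 5` and `s ≥ log d`.
2. For given `n` and `q`, less than `2^d` hyperplanes suffice in all sufficiently high dimensions.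
3. In particular, this holds for every sum `K = o + C_1 + ... + C_m` of centrally symmetric compact
   convex sets `C_j` of dimension at most `n`, for every number `m` of summands, as soon as
   `d ≥ (n + 2) (16280 max (5, log d))^2`.

The proof: the polar body of `K` with respect to `o` is `{y | ∫ h_ω(y)^q dμ(ω) ≤ 1}`, which is
covered by few translates of its interior by the theorem `MP_eba1ef_gt.LqSumsOfSmallSpaces` of the
starting files (bodies with small flatness, `TH591.Sq`), and every translate gives a hyperplane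
(`H985.Sep`).
-/

namespace Pool.Agent.Results.MP_5e7226_co.SumsOfSmallSets

open scoped InnerProductSpace
open MeasureTheory

universe u

/-- The hyperplanes `⟪h.1, x⟫ = h.2`, `h ∈ H`, separate every face of `K` strictly from `o`. -/
def Separates {d : ℕ} (H : Finset (EuclideanSpace ℝ (Fin d) × ℝ))
    (K : Set (EuclideanSpace ℝ (Fin d))) (o : EuclideanSpace ℝ (Fin d)) : Prop :=
  (∀ h ∈ H, h.1 ≠ 0) ∧
  ∀ u x₀ : EuclideanSpace ℝ (Fin d), u ≠ 0 → x₀ ∈ K → (∀ y ∈ K, ⟪u, y⟫_ℝ ≤ ⟪u, x₀⟫_ℝ) →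
    ∃ h ∈ H, ⟪h.1, o⟫_ℝ < h.2 ∧ ∀ x ∈ K, ⟪u, x⟫_ℝ = ⟪u, x₀⟫_ℝ → h.2 < ⟪h.1, x⟫_ℝ

/-- The support function of `K - o` is `(∫ h_ω ^ q dμ(ω)) ^ (1/q)` for a measurable family of
seminorms `h_ω`, each of which vanishes on a subspace of codimension at most `n`. -/
def IsLqSum {d : ℕ} (n : ℕ) (q : ℝ) (K : Set (EuclideanSpace ℝ (Fin d)))
    (o : EuclideanSpace ℝ (Fin d)) : Prop :=
  ∃ (Ω : Type u) (_ : MeasurableSpace Ω) (μ : Measure Ω) (_ : SFinite μ)
    (h : Ω → Seminorm ℝ (EuclideanSpace ℝ (Fin d))),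
    Measurable (fun z : Ω × EuclideanSpace ℝ (Fin d) => h z.1 z.2) ∧
    (∀ ω, ∃ W : Submodule ℝ (EuclideanSpace ℝ (Fin d)),
      (∀ w ∈ W, h ω w = 0) ∧ d ≤ Module.finrank ℝ W + n) ∧
    (∀ y, Integrable (fun ω => h ω y ^ q) μ) ∧
    ∀ y, IsGreatest {t : ℝ | ∃ x ∈ K, t = ⟪y, x - o⟫_ℝ} ((∫ ω, h ω y ^ q ∂μ) ^ (1 / q))

/-- A centrally symmetric compact convex set of dimension at most `n`. -/
def IsSmall {d : ℕ} (n : ℕ) (C : Set (EuclideanSpace ℝ (Fin d))) : Prop :=
  Convex ℝ C ∧ IsCompact C ∧ C.Nonempty ∧ (∀ x ∈ C, -x ∈ C) ∧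
    ∃ W : Submodule ℝ (EuclideanSpace ℝ (Fin d)), Module.finrank ℝ W ≤ n ∧ C ⊆ W

/-- `o + C_1 + ... + C_m` -/
def sumSet {d m : ℕ} (o : EuclideanSpace ℝ (Fin d))
    (C : Fin m → Set (EuclideanSpace ℝ (Fin d))) : Set (EuclideanSpace ℝ (Fin d)) :=
  {x | ∃ c : Fin m → EuclideanSpace ℝ (Fin d), (∀ j, c j ∈ C j) ∧ x = o + ∑ j, c j}

/-- the support function -/
noncomputable def hs {d : ℕ} (C : Set (EuclideanSpace ℝ (Fin d))) (y : EuclideanSpace ℝ (Fin d)) :
    ℝ := sSup ((fun x => ⟪y, x⟫_ℝ) '' C)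

theorem hs_greatest {d n : ℕ} {C : Set (EuclideanSpace ℝ (Fin d))} (hC : IsSmall n C)
    (y : EuclideanSpace ℝ (Fin d)) : IsGreatest ((fun x => ⟪y, x⟫_ℝ) '' C) (hs C y) := by
  obtain ⟨-, hCc, hne, -, -⟩ := hC
  exact (hCc.image (by fun_prop)).isGreatest_sSup (hne.image _)

theorem le_hs {d n : ℕ} {C : Set (EuclideanSpace ℝ (Fin d))} (hC : IsSmall n C)
    (y x : EuclideanSpace ℝ (Fin d)) (hx : x ∈ C) : ⟪y, x⟫_ℝ ≤ hs C y :=
  (hs_greatest hC y).2 ⟨x, hx, rfl⟩

theorem hs_neg {d n : ℕ} {C : Set (EuclideanSpace ℝ (Fin d))} (hC : IsSmall n C)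
    (y : EuclideanSpace ℝ (Fin d)) : hs C (-y) ≤ hs C y := by
  obtain ⟨x, hx, he⟩ := (hs_greatest hC (-y)).1
  have h1 := le_hs hC y (-x) (hC.2.2.2.1 x hx)
  simp only at he
  rw [inner_neg_left] at he
  rw [inner_neg_right] at h1
  linarith

theorem hs_smul_le {d n : ℕ} {C : Set (EuclideanSpace ℝ (Fin d))} (hC : IsSmall n C)
    (a : ℝ) (ha : 0 ≤ a) (y : EuclideanSpace ℝ (Fin d)) : hs C (a • y) = a * hs C y := by
  apply le_antisymm
  · obtain ⟨x, hx, he⟩ := (hs_greatest hC (a • y)).1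
    simp only at he
    rw [real_inner_smul_left] at he
    rw [← he]
    exact mul_le_mul_of_nonneg_left (le_hs hC y x hx) ha
  · obtain ⟨x, hx, he⟩ := (hs_greatest hC y).1
    simp only at he
    have h1 := le_hs hC (a • y) x hx
    rw [real_inner_smul_left] at h1
    rwa [he] at h1

/-- the support function as a seminorm -/
noncomputable def hN {d n : ℕ} {C : Set (EuclideanSpace ℝ (Fin d))} (hC : IsSmall n C) :
    Seminorm ℝ (EuclideanSpace ℝ (Fin d)) :=
  Seminorm.of (hs C) (fun y z => by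
    obtain ⟨x, hx, he⟩ := (hs_greatest hC (y + z)).1
    simp only at he
    rw [inner_add_left] at he
    have h1 := le_hs hC y x hx
    have h2 := le_hs hC z x hx
    linarith) (fun a y => by
    rw [Real.norm_eq_abs]
    rcases le_total 0 a with ha | ha
    · rw [abs_of_nonneg ha, hs_smul_le hC a ha]
    · rw [abs_of_nonpos ha]
      have e : a • y = (-a) • (-y) := by rw [smul_neg, neg_smul, neg_neg]
      rw [e, hs_smul_le hC (-a) (by linarith)]
      congr 1
      apply le_antisymm (hs_neg hC y)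
      have h := hs_neg hC (-y)
      rwa [neg_neg] at h)

theorem hN_apply {d n : ℕ} {C : Set (EuclideanSpace ℝ (Fin d))} (hC : IsSmall n C)
    (y : EuclideanSpace ℝ (Fin d)) : hN hC y = hs C y := rfl

theorem hN_cont {d n : ℕ} {C : Set (EuclideanSpace ℝ (Fin d))} (hC : IsSmall n C) :
    Continuous (hN hC) := by
  obtain ⟨R, hR⟩ := hC.2.1.isBounded.exists_norm_le
  have hR0 : 0 ≤ max R 0 := le_max_right _ _
  refine Seminorm.continuous_of_le (q := (max R 0).toNNReal • normSeminorm ℝ _) ?_ ?_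
  · have : (⇑((max R 0).toNNReal • normSeminorm ℝ (EuclideanSpace ℝ (Fin d)))) =
        fun y => ((max R 0).toNNReal : ℝ) * ‖y‖ := rfl
    rw [this]
    fun_prop
  · intro y
    show hs C y ≤ ((max R 0).toNNReal : ℝ) * ‖y‖
    rw [Real.coe_toNNReal _ hR0]
    obtain ⟨x, hx, he⟩ := (hs_greatest hC y).1
    rw [← he]
    calc ⟪y, x⟫_ℝ ≤ ‖y‖ * ‖x‖ := real_inner_le_norm _ _
      _ ≤ ‖y‖ * max R 0 := by
          gcongr
          exact (hR x hx).trans (le_max_left _ _)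
      _ = _ := mul_comm _ _

theorem sumSet_compact {d m : ℕ} (o : EuclideanSpace ℝ (Fin d))
    (C : Fin m → Set (EuclideanSpace ℝ (Fin d))) (hC : ∀ j, IsCompact (C j)) :
    IsCompact (sumSet o C) := by
  have h1 : sumSet o C = (fun c : Fin m → EuclideanSpace ℝ (Fin d) => o + ∑ j, c j) ''
      Set.univ.pi C := by
    ext x
    constructor
    · rintro ⟨c, hc, rfl⟩
      exact ⟨c, fun j _ => hc j, rfl⟩
    · rintro ⟨c, hc, rfl⟩
      exact ⟨c, fun j => hc j trivial, rfl⟩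
  rw [h1]
  exact (isCompact_univ_pi hC).image (by fun_prop)

theorem sumSet_convex {d m : ℕ} (o : EuclideanSpace ℝ (Fin d))
    (C : Fin m → Set (EuclideanSpace ℝ (Fin d))) (hC : ∀ j, Convex ℝ (C j)) :
    Convex ℝ (sumSet o C) := by
  rintro _ ⟨c, hc, rfl⟩ _ ⟨c', hc', rfl⟩ a b ha hb hab
  refine ⟨fun j => a • c j + b • c' j, fun j => hC j (hc j) (hc' j) ha hb hab, ?_⟩
  rw [Finset.sum_add_distrib, ← Finset.smul_sum, ← Finset.smul_sum, smul_add, smul_add]
  have : a • o + b • o = o := by rw [← add_smul, hab, one_smul]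
  calc a • o + a • ∑ j, c j + (b • o + b • ∑ j, c' j)
      = (a • o + b • o) + (a • ∑ j, c j + b • ∑ j, c' j) := by abel
    _ = _ := by rw [this]

theorem center_mem {d m n : ℕ} (o : EuclideanSpace ℝ (Fin d))
    (C : Fin m → Set (EuclideanSpace ℝ (Fin d))) (hC : ∀ j, IsSmall n (C j))
    (hi : (interior (sumSet o C)).Nonempty) : o ∈ interior (sumSet o C) := by
  obtain ⟨z, hz⟩ := hi
  have hconv := sumSet_convex o C (fun j => (hC j).1)
  have hsym : ∀ x ∈ sumSet o C, (2 : ℝ) • o - x ∈ sumSet o C := by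
    rintro _ ⟨c, hc, rfl⟩
    refine ⟨fun j => -c j, fun j => (hC j).2.2.2.1 _ (hc j), ?_⟩
    rw [Finset.sum_neg_distrib, two_smul]
    abel
  let Φ : EuclideanSpace ℝ (Fin d) ≃ₜ EuclideanSpace ℝ (Fin d) :=
    Homeomorph.subLeft ((2 : ℝ) • o)
  have hΦ : Φ '' sumSet o C = sumSet o C := by
    apply Set.Subset.antisymm
    · rintro _ ⟨x, hx, rfl⟩
      exact hsym x hx
    · intro x hx
      refine ⟨(2 : ℝ) • o - x, hsym x hx, ?_⟩
      show (2 : ℝ) • o - ((2 : ℝ) • o - x) = x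
      abel
  have hz' : (2 : ℝ) • o - z ∈ interior (sumSet o C) := by
    rw [← hΦ, ← Φ.image_interior]
    exact ⟨z, hz, rfl⟩
  have h := hconv.interior hz hz' (show (0 : ℝ) ≤ 1 / 2 by norm_num)
    (show (0 : ℝ) ≤ 1 / 2 by norm_num) (by norm_num)
  have e : (1 / 2 : ℝ) • z + (1 / 2 : ℝ) • ((2 : ℝ) • o - z) = o := by
    rw [smul_sub, smul_smul]
    norm_num
  rwa [e] at h

/-- finite sums belong to the class -/
theorem isLqSum_sumSet {d m n : ℕ} (o : EuclideanSpace ℝ (Fin d))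
    (C : Fin m → Set (EuclideanSpace ℝ (Fin d))) (hC : ∀ j, IsSmall n (C j)) :
    IsLqSum.{0} n 1 (sumSet o C) o := by
  refine ⟨Fin m, ⊤, @Measure.count _ ⊤, inferInstance, fun j => hN (hC j), ?_, ?_, ?_, ?_⟩
  · refine measurable_from_prod_countable_right fun j => ?_
    exact (hN_cont (hC j)).measurable
  · intro j
    obtain ⟨W, hW, hCW⟩ := (hC j).2.2.2.2
    refine ⟨Wᗮ, fun w hw => ?_, ?_⟩
    · rw [hN_apply]
      obtain ⟨x, hx, he⟩ := (hs_greatest (hC j) w).1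
      rw [← he]
      exact (Submodule.mem_orthogonal' W w).1 hw x (hCW hx)
    · have h1 := Submodule.finrank_add_finrank_orthogonal W
      rw [finrank_euclideanSpace, Fintype.card_fin] at h1
      omega
  · intro y
    exact Integrable.of_finite
  · intro y
    have e : (∫ j, (hN (hC j)) y ^ (1 : ℝ) ∂(@Measure.count _ ⊤)) ^ (1 / (1 : ℝ)) =
        ∑ j, hs (C j) y := by
      rw [div_one, Real.rpow_one, integral_count]
      exact Finset.sum_congr rfl fun j _ => by rw [Real.rpow_one, hN_apply]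
    rw [e]
    constructor
    · choose x hx he using fun j => (hs_greatest (hC j) y).1
      refine ⟨o + ∑ j, x j, ⟨x, hx, rfl⟩, ?_⟩
      rw [add_sub_cancel_left, inner_sum]
      exact Finset.sum_congr rfl fun j _ => (he j).symm
    · rintro _ ⟨_, ⟨c, hc, rfl⟩, rfl⟩
      rw [add_sub_cancel_left, inner_sum]
      exact Finset.sum_le_sum fun j _ => le_hs (hC j) y (c j) (hc j)

/-- the bound, for the data of `IsLqSum` -/
theorem main_bound : ∀ (d n : ℕ) (q : ℝ), 2 ≤ d → 1 ≤ q → ∀ (K : Set (EuclideanSpace ℝ (Fin d)))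
      (o : EuclideanSpace ℝ (Fin d)), Convex ℝ K → IsCompact K → o ∈ interior K →
      ∀ (Ω : Type u) (_ : MeasurableSpace Ω) (μ : Measure Ω) (_ : SFinite μ)
        (h : Ω → Seminorm ℝ (EuclideanSpace ℝ (Fin d))),
      Measurable (fun z : Ω × EuclideanSpace ℝ (Fin d) => h z.1 z.2) →
      (∀ ω, ∃ W : Submodule ℝ (EuclideanSpace ℝ (Fin d)),
        (∀ w ∈ W, h ω w = 0) ∧ d ≤ Module.finrank ℝ W + n) →
      (∀ y, Integrable (fun ω => h ω y ^ q) μ) →
      (∀ y, IsGreatest {t : ℝ | ∃ x ∈ K, t = ⟪y, x - o⟫_ℝ} ((∫ ω, h ω y ^ q ∂μ) ^ (1 / q))) →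
      ∀ s : ℝ, s = √(d / (n + q + 1)) / 16280 →
      ∃ H : Finset (EuclideanSpace ℝ (Fin d) × ℝ), Separates H K o ∧
        (H.card : ℝ) ≤ 1 + 13 * d * Real.log (4 * d + 1) * 2 ^ d * Real.exp (-(2 * s)) ∧
        (5 ≤ s → Real.log d ≤ s → H.card < 2 ^ d) := by
    intro d n q hd hq K o hK hKc ho Ω hΩ μ hμ h hm hr hi hg s hs
    have hq0 : 0 < q := by linarith
    have hP : Pool.Agent.H985.Sep.polar K o = {x | ∫ ω, h ω x ^ q ∂μ ≤ 1} := by
      ext y
      have h0 : 0 ≤ ∫ ω, h ω y ^ q ∂μ :=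
        integral_nonneg fun ω => Real.rpow_nonneg (apply_nonneg _ _) _
      constructor
      · intro hy
        obtain ⟨x, hx, he⟩ := (hg y).1
        have h1 : (∫ ω, h ω y ^ q ∂μ) ^ (1 / q) ≤ 1 := by
          rw [he]
          exact hy x hx
        have h2 := Real.rpow_le_rpow (Real.rpow_nonneg h0 _) h1 hq0.le
        rwa [← Real.rpow_mul h0, one_div, inv_mul_cancel₀ hq0.ne', Real.rpow_one,
          Real.one_rpow] at h2
      · intro hy x hx
        refine ((hg y).2 ⟨x, hx, rfl⟩).trans ?_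
        exact Real.rpow_le_one h0 hy (by positivity)
    obtain ⟨T, h1, h2, h3⟩ := Pool.Agent.TH591.Sq.cover_s d hd (Pool.Agent.H985.Sep.polar K o)
      (Pool.Agent.H985.Sep.isCompact_polar ho).isBounded n q hq μ h hm hr hi hP s hs
    obtain ⟨H, hc, hne, hH⟩ := Pool.Agent.H985.Sep.separate ho T h1
    refine ⟨H, ⟨hne, hH⟩, le_trans (by exact_mod_cast hc) h2, fun h5 hl => ?_⟩
    exact lt_of_le_of_lt hc (h3 h5 hl)

/-- **Main theorem.** -/
theorem result :
    -- 1. the quantitative bound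
    (∀ (d n : ℕ) (q : ℝ), 2 ≤ d → 1 ≤ q → ∀ (K : Set (EuclideanSpace ℝ (Fin d)))
      (o : EuclideanSpace ℝ (Fin d)), Convex ℝ K → IsCompact K → o ∈ interior K →
      IsLqSum.{u} n q K o → ∀ s : ℝ, s = √(d / (n + q + 1)) / 16280 →
      ∃ H : Finset (EuclideanSpace ℝ (Fin d) × ℝ), Separates H K o ∧
        (H.card : ℝ) ≤ 1 + 13 * d * Real.log (4 * d + 1) * 2 ^ d * Real.exp (-(2 * s)) ∧
        (5 ≤ s → Real.log d ≤ s → H.card < 2 ^ d)) ∧
    -- 2. the conjecture in high dimensions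
    (∀ (n : ℕ) (q : ℝ), 1 ≤ q → ∃ d₀ : ℕ, ∀ d : ℕ, d₀ ≤ d →
      ∀ (K : Set (EuclideanSpace ℝ (Fin d))) (o : EuclideanSpace ℝ (Fin d)), Convex ℝ K →
        IsCompact K → o ∈ interior K → IsLqSum.{u} n q K o →
        ∃ H : Finset (EuclideanSpace ℝ (Fin d) × ℝ), Separates H K o ∧ H.card < 2 ^ d) ∧
    -- 3. finite sums of centrally symmetric sets of dimension at most `n`
    (∀ d n m : ℕ, 2 ≤ d → (n + 2) * (16280 * max 5 (Real.log d)) ^ 2 ≤ d →
      ∀ (o : EuclideanSpace ℝ (Fin d)) (C : Fin m → Set (EuclideanSpace ℝ (Fin d))),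
        (∀ j, IsSmall n (C j)) → (interior (sumSet o C)).Nonempty →
        o ∈ interior (sumSet o C) ∧
        ∃ H : Finset (EuclideanSpace ℝ (Fin d) × ℝ), Separates H (sumSet o C) o ∧
          H.card < 2 ^ d) := by
  refine ⟨?_, ?_, ?_⟩
  · rintro d n q hd hq K o hK hKc ho ⟨Ω, hΩ, μ, hμ, h, hm, hr, hi, hg⟩ s hs
    exact main_bound d n q hd hq K o hK hKc ho Ω hΩ μ hμ h hm hr hi hg s hs
  · intro n q hq
    obtain ⟨d₀, hd₀⟩ := Pool.Agent.TH591.Sq.exists_dim n q hq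
    refine ⟨max d₀ 2, fun d hd K o hK hKc ho => ?_⟩
    rintro ⟨Ω, hΩ, μ, hμ, h, hm, hr, hi, hg⟩
    obtain ⟨h5, hlog⟩ := hd₀ d (le_trans (le_max_left _ _) hd)
    obtain ⟨H, h1, -, h3⟩ := main_bound d n q (le_trans (le_max_right _ _) hd) hq K o hK hKc ho
      Ω hΩ μ hμ h hm hr hi hg _ rfl
    exact ⟨H, h1, h3 h5 hlog⟩
  · intro d n m hd hdim o C hC hint
    have ho := center_mem o C hC hint
    refine ⟨ho, ?_⟩
    obtain ⟨Ω, hΩ, μ, hμ, h, hm, hr, hi, hg⟩ := isLqSum_sumSet o C hC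
    obtain ⟨H, h1, -, h3⟩ := main_bound d n 1 hd le_rfl _ o (sumSet_convex o C fun j => (hC j).1)
      (sumSet_compact o C fun j => (hC j).2.1) ho Ω hΩ μ hμ h hm hr hi hg _ rfl
    have hn0 : (0 : ℝ) < n + 1 + 1 := by positivity
    have key : max 5 (Real.log d) ≤ √((d : ℝ) / (n + 1 + 1)) / 16280 := by
      rw [le_div_iff₀ (by norm_num)]
      apply Real.le_sqrt_of_sq_le
      rw [le_div_iff₀ hn0]
      have e : (max 5 (Real.log d) * 16280) ^ 2 * ((n : ℝ) + 1 + 1) =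
        (n + 2) * (16280 * max 5 (Real.log d)) ^ 2 := by ring
      rw [e]
      exact hdim
    exact ⟨H, h1, h3 ((le_max_left _ _).trans key) ((le_max_right _ _).trans key)⟩

end Pool.Agent.Results.MP_5e7226_co.SumsOfSmallSets
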